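import Pool.Agent.W2helper38.AC.Fin
import Pool.Agent.W2helper33.AC.D
import Pool.Agent.W2helper5.AC.B
import Pool.Agent.W2helper66.AC.A
import Pool.Agent.W2helper78.AC.Glue
import Pool.Agent.W2helper78.AC.Ker
import Pool.Agent.W2helper82.AC.C1

/-!
# Project AC: all the pieces together
-/

set_option autoImplicit false

open scoped ContDiff

namespace Pool.Agent.W2helper38.AC

theorem main (F F' G : M → M)
    (hF : ContDiff ℝ ∞ F) (hF' : ContDiff ℝ ∞ F') (hG : ContDiff ℝ ∞ G)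
    (hFX : ∀ P ∈ X, F P ∈ X) (hFX' : ∀ P ∈ X, F' P ∈ X) (hGX : ∀ P ∈ X, G P ∈ X)
    (hGF : ∀ P ∈ X, G (F P) = P) (hFG : ∀ P ∈ X, F (G P) = P)
    (hne : ∀ P ∈ X, (mat (F P) * mat (F' P)).trace ≠ 0) (hA : Ang2 F F') : Iso F F' :=
  main1 W2helper66.AC.a1 W2helper66.AC.a2 W2helper66.AC.a3 W2helper5.AC.stmB
    (W2helper82.AC.c1 W2helper66.AC.a1 W2helper66.AC.a2 W2helper66.AC.a3)
    (W2helper78.AC.p_C2 W2helper66.AC.a1 W2helper66.AC.a2 W2helper66.AC.a3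
      (W2helper82.AC.c1 W2helper66.AC.a1 W2helper66.AC.a2 W2helper66.AC.a3))
    W2helper33.AC.piece_D0 (W2helper33.AC.piece_D1 W2helper33.AC.piece_D0)
    (W2helper33.AC.piece_D2 W2helper33.AC.piece_D0) W2helper78.AC.p_E F F' G hF hF' hG hFX hFX'
    hGX hGF hFG hne hA

end Pool.Agent.W2helper38.AC
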