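import Pool.Agent.W2helper38.AC.Rel

/-!
# Project AC: the relative version
-/

set_option autoImplicit false

open Set Filter Topology Metric Matrix
open scoped ContDiff

noncomputable section

namespace Pool.Agent.W2helper38.AC

/-- the angle condition for `F` and `F'` -/
def Ang2 (F F' : M → M) : Prop :=
  ∀ P ∈ X, ∀ v : M, IsTan P v → v ≠ 0 →
    -(2 * √((mat (F P) * mat (F' P)).trace.re) / (1 + √((mat (F P) * mat (F' P)).trace.re) ^ 2) *
        (fro (mat (fderiv ℝ F P v)) * fro (mat (fderiv ℝ F' P v)))) <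
      (transv (mat (F P)) (mat (F' P)) * mat (fderiv ℝ F P v) *
        (transv (mat (F P)) (mat (F' P)))ᴴ * mat (fderiv ℝ F' P v)).trace.re

theorem main1 (A1 : StmA1) (A2 : StmA2) (A3 : StmA3) (B : StmB) (C1 : StmC1) (C2 : StmC2)
    (D0 : StmD0) (D1 : StmD1) (D2 : StmD2) (SE : StmE) (F F' G : M → M)
    (hF : ContDiff ℝ ∞ F) (hF' : ContDiff ℝ ∞ F') (hG : ContDiff ℝ ∞ G)
    (hFX : ∀ P ∈ X, F P ∈ X) (hFX' : ∀ P ∈ X, F' P ∈ X) (hGX : ∀ P ∈ X, G P ∈ X)
    (hGF : ∀ P ∈ X, G (F P) = P) (hFG : ∀ P ∈ X, F (G P) = P)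
    (hne : ∀ P ∈ X, (mat (F P) * mat (F' P)).trace ≠ 0) (hA : Ang2 F F') : Iso F F' := by
  set E : M → M := fun P => F' (G P) with hE
  have hgood : Good E := by
    refine ⟨hF'.comp hG, fun P hP => hFX' _ (hGX P hP), fun P hP => ?_⟩
    have h1 := hne (G P) (hGX P hP)
    rw [hFG P hP] at h1
    intro h2
    apply h1
    rw [← h2]
    rfl
  have hang : Ang E := by
    intro z w x y c hz hw hc0 hc hx hy hx0 hEz hdE
    have hzX : rk z z ∈ X := by
      rw [← pr_unit hz]
      refine A2.1 z ?_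
      intro h
      rw [h, norm_zero] at hz
      exact zero_ne_one hz
    set P := G (rk z z) with hP
    have hPX : P ∈ X := hGX _ hzX
    have hFP : F P = rk z z := hFG _ hzX
    have hF'P : F' P = rk w w := hEz
    set ξ : M := fderiv ℝ G (rk z z) (rk x z + rk z x) with hξ
    have hT : IsTan P ξ := isTan_fderiv A2 hz hx G hG hGX
    have hdF : fderiv ℝ F P ξ = rk x z + rk z x := by
      have h1 : HasDerivAt (fun s : ℝ => F (G (pr (z + s • x)))) (fderiv ℝ F P ξ) 0 := by
        have h2 := hasDerivAt_comp_pr hz hx G hG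
        have h3 : HasFDerivAt F (fderiv ℝ F P) (G (pr (z + (0 : ℝ) • x))) := by
          rw [zero_smul, add_zero, pr_unit hz]
          exact (hF.differentiable (by simp)).differentiableAt.hasFDerivAt
        exact h3.comp_hasDerivAt (0 : ℝ) h2
      have h4 : (fun s : ℝ => F (G (pr (z + s • x)))) = fun s : ℝ => pr (z + s • x) :=
        funext fun s => hFG _ (A2.1 _ (add_smul_ne_zero hz hx s))
      rw [h4] at h1
      exact h1.unique (hasDerivAt_pr hz hx)
    have hdF' : fderiv ℝ F' P ξ = rk y w + rk w y := by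
      rw [← hdE]
      have h1 : HasFDerivAt F' (fderiv ℝ F' P) (G (rk z z)) :=
        (hF'.differentiable (by simp)).differentiableAt.hasFDerivAt
      have h2 : HasFDerivAt G (fderiv ℝ G (rk z z)) (rk z z) :=
        (hG.differentiable (by simp)).differentiableAt.hasFDerivAt
      have h3 := (h1.comp (rk z z) h2).fderiv
      have h4 : fderiv ℝ E (rk z z) = (fderiv ℝ F' P).comp (fderiv ℝ G (rk z z)) := h3
      rw [h4]
      rfl
    have hξ0 : ξ ≠ 0 := by
      intro h
      rw [h, map_zero] at hdF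
      have h1 := fro_tangent hz hx
      rw [← hdF] at h1
      have h2 : fro (mat (0 : M)) = 0 := by
        have : mat (0 : M) = 0 := rfl
        rw [this, fro]
        simp
      rw [h2] at h1
      have h3 : ‖x‖ ≠ 0 := norm_ne_zero_iff.2 hx0
      have h4 : √(2 : ℝ) ≠ 0 := by positivity
      exact mul_ne_zero h4 h3 h1.symm
    have h := hA P hPX ξ hT hξ0
    rw [hFP, hF'P, hdF, hdF', trace_transport hz hw hc hc0 hx hy, fro_tangent hz hx,
      fro_tangent hw hy, trace_rk_rk hc, Complex.ofReal_re, Real.sqrt_sq hc0.le] at h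
    have h5 : √(2 : ℝ) * √2 = 2 := Real.mul_self_sqrt (by norm_num)
    have h6 : 2 * c / (1 + c ^ 2) * (√2 * ‖x‖ * (√2 * ‖y‖)) =
        2 * (2 * c / (1 + c ^ 2) * (‖x‖ * ‖y‖)) := by
      calc 2 * c / (1 + c ^ 2) * (√2 * ‖x‖ * (√2 * ‖y‖))
          = (√2 * √2) * (2 * c / (1 + c ^ 2) * (‖x‖ * ‖y‖)) := by ring
        _ = _ := by rw [h5]
    rw [h6] at h
    linarith
  obtain ⟨K, k1, k2, k3, k4, k5⟩ := main0 A1 A2 A3 B C1 C2 D0 D1 D2 SE E hgood hang
  refine ⟨fun q => K (q.1, F q.2), ?_, ?_, ?_, ?_, ?_⟩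
  · exact k1.comp (contDiff_fst.prodMk (hF.comp contDiff_snd))
  · intro t P hP
    exact k2 t _ (hFX P hP)
  · intro P hP
    exact k3 _ (hFX P hP)
  · intro P hP
    show K (1, F P) = F' P
    rw [k4 _ (hFX P hP), hE]
    show F' (G (F P)) = F' P
    rw [hGF P hP]
  · intro t
    obtain ⟨L, l1, l2⟩ := k5 t
    refine ⟨fun P => G (L P), hG.comp l1, fun P hP => ?_⟩
    obtain ⟨m1, m2, m3⟩ := l2 P hP
    refine ⟨hGX _ m1, ?_, ?_⟩
    · show G (L (K (t, F P))) = P
      rw [(l2 (F P) (hFX P hP)).2.1, hGF P hP]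
    · show K (t, F (G (L P))) = P
      rw [hFG _ m1, m3]

end Pool.Agent.W2helper38.AC
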