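import Pool.Agent.W2helper38.AC.Stm

/-!
# Project AC: assembly of the absolute version from the pieces
-/

set_option autoImplicit false

open Set Filter Topology Metric
open scoped ContDiff

noncomputable section

namespace Pool.Agent.W2helper38.AC

/-- the angle condition on `E`, in homogeneous coordinates -/
def Ang (E : M → M) : Prop :=
  ∀ (z w x y : V) (c : ℝ), ‖z‖ = 1 → ‖w‖ = 1 → 0 < c → inner ℂ z w = (c : ℂ) →
    inner ℂ z x = (0 : ℂ) → inner ℂ w y = (0 : ℂ) → x ≠ 0 → E (rk z z) = rk w w →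
    fderiv ℝ E (rk z z) (rk x z + rk z x) = rk y w + rk w y →
    -(2 * c / (1 + c ^ 2) * (‖x‖ * ‖y‖)) <
      (inner ℂ y x : ℂ).re - (inner ℂ y z * inner ℂ w x : ℂ).re / (1 + c)

/-- `F` and `F'` are joined by a smooth path of diffeomorphisms of `X` -/
def Iso (F F' : M → M) : Prop :=
  ∃ K : ℝ × M → M, ContDiff ℝ ∞ K ∧ (∀ t : ℝ, ∀ P ∈ X, K (t, P) ∈ X) ∧
    (∀ P ∈ X, K (0, P) = F P) ∧ (∀ P ∈ X, K (1, P) = F' P) ∧
    ∀ t : ℝ, ∃ L : M → M, ContDiff ℝ ∞ L ∧ ∀ P ∈ X, L P ∈ X ∧ L (K (t, P)) = P ∧ K (t, L P) = P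

theorem coe_smul' (r : ℝ) (z : V) : ((r : ℂ)) • z = r • z := by
  ext i
  simp

theorem fderiv_hom {W : Type} [NormedAddCommGroup W] [NormedSpace ℝ W] (f : W → W)
    (hf : ∀ (z : W) (r : ℝ), 0 < r → f (r • z) = r • f z) (z : W) (r : ℝ) (hr : 0 < r)
    (hd : DifferentiableAt ℝ f z) :
    fderiv ℝ f (r • z) = fderiv ℝ f z := by
  have h1 : f = fun v => r • f (r⁻¹ • v) := by
    funext v
    rw [← hf _ _ hr, smul_smul, mul_inv_cancel₀ hr.ne', one_smul]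
  have h2 : HasFDerivAt (fun v : W => r⁻¹ • v) (r⁻¹ • ContinuousLinearMap.id ℝ W) (r • z) :=
    (hasFDerivAt_id (𝕜 := ℝ) (r • z)).const_smul r⁻¹
  have h3 : HasFDerivAt f (fderiv ℝ f z) (r⁻¹ • (r • z)) := by
    rw [smul_smul, inv_mul_cancel₀ hr.ne', one_smul]
    exact hd.hasFDerivAt
  have h4 : HasFDerivAt (fun v => r • f (r⁻¹ • v))
      (r • (fderiv ℝ f z).comp (r⁻¹ • ContinuousLinearMap.id ℝ W)) (r • z) :=
    (h3.comp (r • z) h2).const_smul r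
  rw [← h1] at h4
  rw [h4.fderiv]
  ext v
  simp [smul_smul, mul_inv_cancel₀ hr.ne']

theorem norm_smul_inv {z : V} (hz : z ≠ 0) : ‖(‖z‖⁻¹ : ℝ) • z‖ = 1 := by
  rw [norm_smul, norm_inv, norm_norm, inv_mul_cancel₀ (norm_ne_zero_iff.2 hz)]

theorem path_mm (A1 : StmA1) (A2 : StmA2) (A3 : StmA3) (B : StmB) (C1 : StmC1) (C2 : StmC2)
    (E : M → M) (hE : Good E) (hA : Ang E) : Path V (mm E) := by
  obtain ⟨c1, c2, c3, c4, c5, c6⟩ := C1 E hE
  obtain ⟨a1, a2, a3, a4, a5, a6⟩ := A2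
  have hom : ∀ (t : ℝ) (z : V) (r : ℝ), 0 < r → mm E (t, r • z) = r • mm E (t, z) := by
    intro t z r hr
    have h := c2 t z (r : ℂ) (by exact_mod_cast hr.ne')
    rwa [coe_smul', coe_smul'] at h
  refine ⟨c1, hom, fun t _ z hz => c3 t z hz, ?_, ?_, ?_⟩
  · intro t ht z hz ζ hζ
    by_contra hne
    set r : ℝ := ‖z‖ with hr
    have hr0 : 0 < r := norm_pos_iff.2 hz
    set u : V := r⁻¹ • z with hu
    have hu1 : ‖u‖ = 1 := norm_smul_inv hz
    have hu0 : u ≠ 0 := by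
      intro h
      rw [h, norm_zero] at hu1
      exact zero_ne_one hu1
    have hzu : r • u = z := by
      rw [hu, smul_smul, mul_inv_cancel₀ hr0.ne', one_smul]
    have hd : DifferentiableAt ℝ (fun v : V => mm E (t, v)) u := by
      have h1 : DifferentiableAt ℝ (mm E) (t, u) := by
        have hop : IsOpen {q : ℝ × V | q.2 ≠ 0} := isOpen_ne.preimage continuous_snd
        exact (c1.contDiffAt (hop.mem_nhds hu0)).differentiableAt (by simp)
      have h2 : DifferentiableAt ℝ (fun v : V => ((t, v) : ℝ × V)) u :=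
        (differentiableAt_const t).prodMk differentiableAt_id
      exact h1.comp u h2
    have hf : fderiv ℝ (fun v : V => mm E (t, v)) z = fderiv ℝ (fun v : V => mm E (t, v)) u := by
      rw [← hzu]
      exact fderiv_hom (fun v : V => mm E (t, v)) (fun z r hr => hom t z r hr) u r hr0 hd
    rw [hf] at hζ
    have hX : rk u u ∈ X := by
      rw [← a3 u hu1]
      exact a1 u hu0
    obtain ⟨w, c, w1, w2, w3, -, w5⟩ := A3 u hu1 (E (rk u u)) (hE.2.1 _ hX) (hE.2.2 _ hX)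
    obtain ⟨x, y, a, x0, x1, x2, x3, x4⟩ := C2 E hE u w c t hu1 w1 w3 w5 w2 ζ hne hζ
    have h1 := B u w x y c t a hu1 w1 w3 w5 x1 x2 x0 ht.1 ht.2 x4
    have h2 := hA u w x y c hu1 w1 w3 w5 x1 x2 x0 w2 x3
    linarith
  · intro z z' hz hz' h
    have hr0 : 0 < (cc E z)⁻¹ * cc E z' := mul_pos (inv_pos.2 (c4 z hz)) (c4 z' hz')
    have h1 : z = ((cc E z)⁻¹ * cc E z') • z' := by
      rw [← smul_smul, ← c5 z', ← h, c5 z, smul_smul, inv_mul_cancel₀ (c4 z hz).ne', one_smul]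
    have h2 := hom 0 z' _ hr0
    rw [← h1, h] at h2
    have h3 : ((cc E z)⁻¹ * cc E z' - 1) • mm E (0, z') = 0 := by
      rw [sub_smul, ← h2, one_smul, sub_self]
    rcases smul_eq_zero.1 h3 with h4 | h4
    · have h5 : (cc E z)⁻¹ * cc E z' = 1 := by linarith
      rw [h5, one_smul] at h1
      exact h1
    · exact absurd h4 (c3 0 z' hz')
  · intro u hu
    refine ⟨(cc E u)⁻¹ • u, smul_ne_zero (inv_ne_zero (c4 u hu).ne') hu, ?_⟩
    rw [hom 0 u _ (inv_pos.2 (c4 u hu)), c5 u, smul_smul, inv_mul_cancel₀ (c4 u hu).ne', one_smul]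

theorem exists_inverse (D0 : StmD0) (D1 : StmD1) (D2 : StmD2) {W : Type} [NormedAddCommGroup W]
    [NormedSpace ℝ W] [FiniteDimensional ℝ W] (m : ℝ × W → W) (hm : Path W m) (t : ℝ)
    (ht : t ∈ Icc (0 : ℝ) 1) :
    ∃ g : W → W, ContDiffOn ℝ ∞ g {u | u ≠ 0} ∧ (∀ u, u ≠ 0 → g u ≠ 0 ∧ m (t, g u) = u) ∧
      ∀ z, z ≠ 0 → g (m (t, z)) = z := by
  classical
  have hg : ∀ u : W, ∃ z : W, u ≠ 0 → z ≠ 0 ∧ m (t, z) = u := by
    intro u
    by_cases hu : u = 0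
    · exact ⟨0, fun h => absurd hu h⟩
    · obtain ⟨z, h1, h2⟩ := D2 W m hm t ht u hu
      exact ⟨z, fun _ => ⟨h1, h2⟩⟩
  choose g hg using hg
  have hinj := D1 W m hm t ht
  refine ⟨g, ?_, hg, ?_⟩
  · intro u hu
    have hu' : u ≠ 0 := hu
    apply ContDiffAt.contDiffWithinAt
    obtain ⟨h1, h2⟩ := hg u hu'
    obtain ⟨-, -, f, f1, f2, f3⟩ := D0 W m hm t ht (g u) h1
    rw [h2] at f1 f2 f3
    refine f1.congr_of_eventuallyEq ?_
    have hc : ∀ᶠ v in 𝓝 u, f v ≠ 0 := by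
      have hcont : ContinuousAt f u := f1.continuousAt
      apply hcont.eventually_ne
      rw [f2]
      exact h1
    filter_upwards [f3, hc, isOpen_ne.mem_nhds hu'] with v v1 v2 v3
    obtain ⟨k1, k2⟩ := hg v v3
    exact hinj _ _ k1 v2 (k2.trans v1.symm)
  · intro z hz
    obtain ⟨h1, h2⟩ := hg (m (t, z)) (hm.ne t ht z hz)
    exact hinj _ _ h1 hz h2

theorem contDiffOn_pr : ContDiffOn ℝ ∞ pr {z : V | z ≠ 0} := by
  rw [contDiffOn_pi]
  intro i
  rw [contDiffOn_pi]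
  intro j
  have h1 : ∀ k : Fin 3, ContDiff ℝ ∞ (fun z : V => z k) := by
    intro k
    have : ContDiff ℝ ∞ (fun z : V => (EuclideanSpace.proj k : V →L[ℂ] ℂ) z) :=
      ((EuclideanSpace.proj k : V →L[ℂ] ℂ).restrictScalars ℝ).contDiff
    simpa using this
  have h2 : ContDiff ℝ ∞ (fun z : V => z i * star (z j)) :=
    (h1 i).mul ((Complex.conjCLE.contDiff).comp (h1 j))
  have h3 : ContDiff ℝ ∞ (fun z : V => ((‖z‖ ^ 2 : ℝ) : ℂ)) :=
    Complex.ofRealCLM.contDiff.comp (contDiff_norm_sq ℂ)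
  have h4 : ContDiffOn ℝ ∞ (fun z : V => (((‖z‖ ^ 2 : ℝ) : ℂ))⁻¹) {z : V | z ≠ 0} := by
    refine h3.contDiffOn.inv ?_
    intro z hz
    have : ‖z‖ ≠ 0 := norm_ne_zero_iff.2 hz
    exact_mod_cast pow_ne_zero 2 this
  refine (h2.contDiffOn.mul h4).congr ?_
  intro z _
  exact div_eq_mul_inv _ _

theorem main0 (A1 : StmA1) (A2 : StmA2) (A3 : StmA3) (B : StmB) (C1 : StmC1) (C2 : StmC2)
    (D0 : StmD0) (D1 : StmD1) (D2 : StmD2) (SE : StmE) (E : M → M) (hE : Good E) (hA : Ang E) :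
    Iso (fun P => P) E := by
  have hm := path_mm A1 A2 A3 B C1 C2 E hE hA
  obtain ⟨c1, c2, c3, c4, c5, c6⟩ := C1 E hE
  obtain ⟨a1, a2, a3, a4, a5, a6⟩ := A2
  have hσ : ∀ t : ℝ, Real.smoothTransition t ∈ Icc (0 : ℝ) 1 := fun t =>
    ⟨Real.smoothTransition.nonneg t, Real.smoothTransition.le_one t⟩
  have unit0 : ∀ z : V, ‖z‖ = 1 → z ≠ 0 := by
    intro z hz h
    rw [h, norm_zero] at hz
    exact zero_ne_one hz
  -- the isotopy
  obtain ⟨K, k1, k2⟩ := SE (fun q : ℝ × V => pr (mm E (Real.smoothTransition q.1, q.2))) (by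
    have h1 : ContDiffOn ℝ ∞ (fun q : ℝ × V => mm E (Real.smoothTransition q.1, q.2))
        {q : ℝ × V | q.2 ≠ 0} := by
      have h2 : ContDiff ℝ ∞ (fun q : ℝ × V => ((Real.smoothTransition q.1, q.2) : ℝ × V)) :=
        (Real.smoothTransition.contDiff.comp contDiff_fst).prodMk contDiff_snd
      exact c1.comp h2.contDiffOn (fun q hq => hq)
    exact contDiffOn_pr.comp h1 (fun q hq => c3 _ _ hq)) (by
    intro t z a hz ha
    show pr (mm E (Real.smoothTransition t, a • z)) = pr (mm E (Real.smoothTransition t, z))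
    rw [c2 _ _ _ ha, a2 _ _ ha])
  refine ⟨K, k1, ?_, ?_, ?_, ?_⟩
  · intro t P hP
    obtain ⟨z, z1, rfl⟩ := A1 P hP
    rw [k2 t z z1]
    exact a1 _ (c3 _ _ (unit0 z z1))
  · intro P hP
    obtain ⟨z, z1, rfl⟩ := A1 P hP
    rw [k2 0 z z1]
    simp only [Real.smoothTransition.zero]
    rw [c5, ← coe_smul', a2 _ _ (by exact_mod_cast (c4 z (unit0 z z1)).ne'), a3 z z1]
  · intro P hP
    obtain ⟨z, z1, rfl⟩ := A1 P hP
    rw [k2 1 z z1]
    simp only [Real.smoothTransition.one]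
    rw [c6 z (unit0 z z1), a3 z z1]
  · intro t
    set τ := Real.smoothTransition t with hτ
    obtain ⟨g, g1, g2, g3⟩ := exists_inverse D0 D1 D2 (mm E) hm τ (hσ t)
    have hinj := D1 V (mm E) hm τ (hσ t)
    have ghom : ∀ (u : V) (a : ℂ), u ≠ 0 → a ≠ 0 → g (a • u) = a • g u := by
      intro u a hu ha
      obtain ⟨h1, h2⟩ := g2 u hu
      obtain ⟨h3, h4⟩ := g2 (a • u) (smul_ne_zero ha hu)
      apply hinj _ _ h3 (smul_ne_zero ha h1)
      rw [h4, c2 _ _ _ ha, h2]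
    obtain ⟨K2, l1, l2⟩ := SE (fun q : ℝ × V => pr (g q.2)) (by
      have h1 : ContDiffOn ℝ ∞ (fun q : ℝ × V => g q.2) {q : ℝ × V | q.2 ≠ 0} :=
        g1.comp contDiff_snd.contDiffOn (fun q hq => hq)
      exact contDiffOn_pr.comp h1 (fun q hq => (g2 _ hq).1)) (by
      intro t z a hz ha
      show pr (g (a • z)) = pr (g z)
      rw [ghom z a hz ha, a2 _ _ ha])
    have hpr : ∀ u : V, u ≠ 0 → pr u = rk ((‖u‖⁻¹ : ℝ) • u) ((‖u‖⁻¹ : ℝ) • u) := by
      intro u hu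
      rw [← a3 _ (norm_smul_inv hu), ← coe_smul', a2]
      exact_mod_cast inv_ne_zero (norm_ne_zero_iff.2 hu)
    have kpr : ∀ u : V, u ≠ 0 → K (t, pr u) = pr (mm E (τ, u)) := by
      intro u hu
      have h0 : ((‖u‖⁻¹ : ℝ) : ℂ) ≠ 0 := by
        exact_mod_cast inv_ne_zero (norm_ne_zero_iff.2 hu)
      rw [hpr u hu, k2 _ _ (norm_smul_inv hu)]
      show pr (mm E (Real.smoothTransition t, _)) = _
      rw [← hτ, ← coe_smul', c2 _ _ _ h0, a2 _ _ h0]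
    have lpr : ∀ u : V, u ≠ 0 → K2 (0, pr u) = pr (g u) := by
      intro u hu
      have h0 : ((‖u‖⁻¹ : ℝ) : ℂ) ≠ 0 := by
        exact_mod_cast inv_ne_zero (norm_ne_zero_iff.2 hu)
      rw [hpr u hu, l2 _ _ (norm_smul_inv hu)]
      show pr (g _) = _
      rw [← coe_smul', ghom _ _ hu h0, a2 _ _ h0]
    refine ⟨fun P => K2 (0, P), l1.comp (contDiff_const.prodMk contDiff_id), ?_⟩
    intro P hP
    obtain ⟨z, z1, rfl⟩ := A1 P hP
    have hz := unit0 z z1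
    rw [← a3 z z1]
    refine ⟨?_, ?_, ?_⟩
    · show K2 (0, pr z) ∈ X
      rw [lpr z hz]
      exact a1 _ (g2 z hz).1
    · show K2 (0, K (t, pr z)) = pr z
      rw [kpr z hz, lpr _ (c3 _ _ hz), g3 z hz]
    · show K (t, K2 (0, pr z)) = pr z
      rw [lpr z hz, kpr _ (g2 z hz).1, (g2 z hz).2]

end Pool.Agent.W2helper38.AC
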