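import Pool.Agent.W2helper38.AC.Main0

/-!
# Project AC: tangent vectors of `CP²`, parallel transport, the relative version
-/

set_option autoImplicit false

open Set Filter Topology Metric
open scoped ContDiff

noncomputable section

namespace Pool.Agent.W2helper38.AC

open Matrix

/-- matrices -/
abbrev MM := Matrix (Fin 3) (Fin 3) ℂ

def IsTan (P v : M) : Prop :=
  (∀ i j, v j i = star (v i j)) ∧ ∀ i j, ∑ k, (P i k * v k j + v i k * P k j) = v i j

theorem add_smul_ne_zero {z x : V} (hz : ‖z‖ = 1) (hx : inner ℂ z x = (0 : ℂ)) (s : ℝ) :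
    z + s • x ≠ 0 := by
  intro h
  have h1 : inner ℂ z (z + s • x) = (0 : ℂ) := by rw [h, inner_zero_right]
  rw [← coe_smul', inner_add_right, inner_smul_right, hx, mul_zero, add_zero,
    inner_self_eq_norm_sq_to_K, hz] at h1
  norm_num at h1

theorem norm_sq_add_smul {z x : V} (hz : ‖z‖ = 1) (hx : inner ℂ z x = (0 : ℂ)) (s : ℝ) :
    ‖z + s • x‖ ^ 2 = 1 + s ^ 2 * ‖x‖ ^ 2 := by
  have h1 : inner ℂ z ((s : ℂ) • x) = (0 : ℂ) := by rw [inner_smul_right, hx, mul_zero]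
  have h2 := @norm_add_sq ℂ V _ _ _ z ((s : ℂ) • x)
  rw [h1, coe_smul', hz, norm_smul, mul_pow] at h2
  rw [h2]
  simp

theorem hasDerivAt_pr {z x : V} (hz : ‖z‖ = 1) (hx : inner ℂ z x = (0 : ℂ)) :
    HasDerivAt (fun s : ℝ => pr (z + s • x)) (rk x z + rk z x) 0 := by
  rw [hasDerivAt_pi]
  intro i
  rw [hasDerivAt_pi]
  intro j
  have h1 : ∀ k : Fin 3, HasDerivAt (fun s : ℝ => z k + (s : ℂ) * x k) (x k) 0 := by
    intro k
    have : HasDerivAt (fun s : ℝ => ((s : ℝ) : ℂ)) 1 0 := Complex.ofRealCLM.hasDerivAt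
    simpa using (this.mul_const (x k)).const_add (z k)
  have h2 : HasDerivAt (fun s : ℝ => star (z j + (s : ℂ) * x j)) (star (x j)) 0 := (h1 j).star
  have h3 := (h1 i).mul h2
  have h4 : HasDerivAt (fun s : ℝ => ((1 + s ^ 2 * ‖x‖ ^ 2 : ℝ) : ℂ)) 0 0 := by
    have h5 : HasDerivAt (fun s : ℝ => 1 + s ^ 2 * ‖x‖ ^ 2) 0 0 := by
      have := ((hasDerivAt_pow 2 (0 : ℝ)).mul_const (‖x‖ ^ 2)).const_add 1
      simpa using this
    simpa using h5.ofReal_comp
  have h5 := h3.div h4 (by simp)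
  have h6 : (fun s : ℝ => pr (z + s • x) i j) =
      ((fun s : ℝ => z i + (s : ℂ) * x i) * (fun s : ℝ => star (z j + (s : ℂ) * x j))) /
        (fun s : ℝ => ((1 + s ^ 2 * ‖x‖ ^ 2 : ℝ) : ℂ)) := by
    funext s
    simp only [pr, Pi.div_apply, Pi.mul_apply]
    rw [norm_sq_add_smul hz hx]
    simp
  show HasDerivAt (fun s : ℝ => pr (z + s • x) i j) _ 0
  rw [h6]
  refine h5.congr_deriv ?_
  simp [rk]

theorem pr_unit {z : V} (hz : ‖z‖ = 1) : pr z = rk z z := by
  funext i j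
  simp [pr, rk, hz]

theorem hasDerivAt_comp_pr {z x : V} (hz : ‖z‖ = 1) (hx : inner ℂ z x = (0 : ℂ)) (f : M → M)
    (hf : ContDiff ℝ ∞ f) :
    HasDerivAt (fun s : ℝ => f (pr (z + s • x)))
      (fderiv ℝ f (rk z z) (rk x z + rk z x)) 0 := by
  have h1 : HasFDerivAt f (fderiv ℝ f (rk z z)) (pr (z + (0 : ℝ) • x)) := by
    rw [zero_smul, add_zero, pr_unit hz]
    exact (hf.differentiable (by simp)).differentiableAt.hasFDerivAt
  exact h1.comp_hasDerivAt (0 : ℝ) (hasDerivAt_pr hz hx)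

theorem isTan_fderiv (A2 : StmA2) {z x : V} (hz : ‖z‖ = 1) (hx : inner ℂ z x = (0 : ℂ))
    (f : M → M) (hf : ContDiff ℝ ∞ f) (hX : ∀ P ∈ X, f P ∈ X) :
    IsTan (f (rk z z)) (fderiv ℝ f (rk z z) (rk x z + rk z x)) := by
  have h0 := hasDerivAt_comp_pr hz hx f hf
  have hmem : ∀ s : ℝ, f (pr (z + s • x)) ∈ X := fun s =>
    hX _ (A2.1 _ (add_smul_ne_zero hz hx s))
  set W := fderiv ℝ f (rk z z) (rk x z + rk z x) with hW
  have hc : ∀ i j, HasDerivAt (fun s : ℝ => f (pr (z + s • x)) i j) (W i j) 0 := by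
    intro i j
    exact hasDerivAt_pi.1 (hasDerivAt_pi.1 h0 i) j
  have h00 : f (pr (z + (0 : ℝ) • x)) = f (rk z z) := by
    rw [zero_smul, add_zero, pr_unit hz]
  constructor
  · intro i j
    have h1 := hc j i
    have h2 := (hc i j).star
    have h3 : (fun s : ℝ => f (pr (z + s • x)) j i) = fun s : ℝ => star (f (pr (z + s • x)) i j) :=
      funext fun s => (hmem s).1 i j
    rw [h3] at h1
    exact h1.unique h2
  · intro i j
    have h1 : HasDerivAt (fun s : ℝ => ∑ k, f (pr (z + s • x)) i k * f (pr (z + s • x)) k j)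
        (∑ k, (W i k * f (pr (z + (0 : ℝ) • x)) k j + f (pr (z + (0 : ℝ) • x)) i k * W k j)) 0 := by
      apply HasDerivAt.fun_sum
      intro k _
      exact (hc i k).mul (hc k j)
    have h3 : (fun s : ℝ => ∑ k, f (pr (z + s • x)) i k * f (pr (z + s • x)) k j) =
        fun s : ℝ => f (pr (z + s • x)) i j := funext fun s => (hmem s).2.1 i j
    rw [h3, h00] at h1
    have h4 := h1.unique (hc i j)
    rw [← h4]
    exact Finset.sum_congr rfl fun k _ => add_comm _ _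

theorem inner_eq (z w : V) : inner ℂ z w = (∑ i, star (z i) * w i : ℂ) := by
  simp [PiLp.inner_apply, mul_comm]

/-! ### matrices -/

/-- the matrix of an element of `M` -/
abbrev mat (A : M) : MM := Matrix.of A

def vec (z : V) : Fin 3 → ℂ := fun i => z i

theorem mat_rk (z w : V) : mat (rk z w) = vecMulVec (vec z) (star (vec w)) := by
  ext i j
  simp [rk, vecMulVec_apply, vec]

theorem inner_dot (z w : V) : inner ℂ z w = star (vec z) ⬝ᵥ vec w := by
  rw [inner_eq]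
  rfl

/-- the transvection along the minimal geodesic from `P` to `Q` -/
def transv (P Q : MM) : MM :=
  1 - ((1 + (√((P * Q).trace.re) : ℂ))⁻¹) • (P + Q + ((√((P * Q).trace.re) : ℂ)⁻¹) • (P * Q + Q * P)) +
    (2 * (√((P * Q).trace.re) : ℂ)⁻¹) • (Q * P)

theorem trace_rk_rk {z w : V} {c : ℝ} (hc : inner ℂ z w = (c : ℂ)) :
    (mat (rk z z) * mat (rk w w)).trace = ((c ^ 2 : ℝ) : ℂ) := by
  have h2 : inner ℂ w z = (c : ℂ) := by
    rw [← inner_conj_symm, hc, Complex.conj_ofReal]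
  rw [mat_rk, mat_rk, vecMulVec_mul_vecMulVec, ← inner_dot, hc, trace_vecMulVec,
    dotProduct_smul, dotProduct_comm, ← inner_dot, h2]
  simp [sq]

theorem transv_eq {z w : V} {c : ℝ} (hc : inner ℂ z w = (c : ℂ)) (hc0 : 0 < c) :
    transv (mat (rk z z)) (mat (rk w w)) =
      1 - ((1 + (c : ℂ))⁻¹) • vecMulVec (vec z + vec w) (star (vec z + vec w)) +
        (2 : ℂ) • vecMulVec (vec w) (star (vec z)) := by
  have h2 : inner ℂ w z = (c : ℂ) := by
    rw [← inner_conj_symm, hc, Complex.conj_ofReal]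
  have hc1 : (c : ℂ) ≠ 0 := by exact_mod_cast hc0.ne'
  have h3 : √((mat (rk z z) * mat (rk w w)).trace.re) = c := by
    rw [trace_rk_rk hc, Complex.ofReal_re, Real.sqrt_sq hc0.le]
  have h4 : mat (rk z z) * mat (rk w w) = (c : ℂ) • vecMulVec (vec z) (star (vec w)) := by
    rw [mat_rk, mat_rk, vecMulVec_mul_vecMulVec, ← inner_dot, hc, vecMulVec_smul]
  have h5 : mat (rk w w) * mat (rk z z) = (c : ℂ) • vecMulVec (vec w) (star (vec z)) := by
    rw [mat_rk, mat_rk, vecMulVec_mul_vecMulVec, ← inner_dot, h2, vecMulVec_smul]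
  rw [transv, h3, h4, h5, mat_rk, mat_rk, star_add, add_vecMulVec, vecMulVec_add, vecMulVec_add,
    ← smul_add, smul_smul, smul_smul, inv_mul_cancel₀ hc1, one_smul, mul_assoc,
    inv_mul_cancel₀ hc1, mul_one]
  congr 3
  abel

theorem transv_mulVec {z w : V} {c : ℝ} (hc : inner ℂ z w = (c : ℂ)) (hc0 : 0 < c) (x : V) :
    transv (mat (rk z z)) (mat (rk w w)) *ᵥ vec x =
      vec x - ((1 + (c : ℂ))⁻¹ * (inner ℂ z x + inner ℂ w x)) • (vec z + vec w) +
        (2 * inner ℂ z x) • vec w := by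
  rw [transv_eq hc hc0, add_mulVec, sub_mulVec, one_mulVec, smul_mulVec, smul_mulVec,
    vecMulVec_mulVec, vecMulVec_mulVec, star_add, add_dotProduct, ← inner_dot, ← inner_dot]
  simp only [op_smul_eq_smul, smul_smul]

theorem transv_z {z w : V} {c : ℝ} (hz : ‖z‖ = 1) (hc : inner ℂ z w = (c : ℂ)) (hc0 : 0 < c) :
    transv (mat (rk z z)) (mat (rk w w)) *ᵥ vec z = vec w := by
  have h2 : inner ℂ w z = (c : ℂ) := by
    rw [← inner_conj_symm, hc, Complex.conj_ofReal]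
  have h3 : (1 + (c : ℂ)) ≠ 0 := by
    have : (1 + c : ℝ) ≠ 0 := by positivity
    exact_mod_cast this
  rw [transv_mulVec hc hc0, h2, inner_self_eq_norm_sq_to_K, hz]
  simp only [map_one, one_pow, mul_one, inv_mul_cancel₀ h3, one_smul]
  ext i
  simp
  ring

/-- the vector of a function -/
def toV (f : Fin 3 → ℂ) : V := WithLp.toLp 2 f

theorem vec_toV (f : Fin 3 → ℂ) : vec (toV f) = f := rfl

theorem mul_vv_mul (R : MM) (a b : V) :
    R * mat (rk a b) * Rᴴ = mat (rk (toV (R *ᵥ vec a)) (toV (R *ᵥ vec b))) := by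
  rw [mat_rk, mat_rk, mul_vecMulVec, vecMulVec_mul, ← star_mulVec, vec_toV, vec_toV]

theorem trace_rk_mul (a b p q : V) :
    (mat (rk a b) * mat (rk p q)).trace = inner ℂ b p * inner ℂ q a := by
  rw [mat_rk, mat_rk, vecMulVec_mul_vecMulVec, ← inner_dot, trace_vecMulVec, dotProduct_smul,
    dotProduct_comm, ← inner_dot, smul_eq_mul]

theorem mat_add (A B : M) : mat (A + B) = mat A + mat B := rfl

/-- the real inner product of the transported vector with the other one -/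
theorem trace_transport {z w x y : V} {c : ℝ} (hz : ‖z‖ = 1) (hw : ‖w‖ = 1)
    (hc : inner ℂ z w = (c : ℂ)) (hc0 : 0 < c) (hx : inner ℂ z x = (0 : ℂ))
    (hy : inner ℂ w y = (0 : ℂ)) :
    ((transv (mat (rk z z)) (mat (rk w w)) * mat (rk x z + rk z x) *
      (transv (mat (rk z z)) (mat (rk w w)))ᴴ * mat (rk y w + rk w y)).trace).re =
      2 * ((inner ℂ y x : ℂ).re - (inner ℂ y z * inner ℂ w x : ℂ).re / (1 + c)) := by
  set R := transv (mat (rk z z)) (mat (rk w w)) with hR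
  have h1 : toV (R *ᵥ vec z) = w := by
    rw [hR, transv_z hz hc hc0]
    rfl
  set r : V := toV (R *ᵥ vec x) with hr
  have hyw : inner ℂ y w = (0 : ℂ) := by
    rw [← inner_conj_symm, hy, map_zero]
  have h2 : inner ℂ y r = (inner ℂ y x : ℂ) - (1 + (c : ℂ))⁻¹ * inner ℂ w x * inner ℂ y z := by
    have h3 : r = x - ((1 + (c : ℂ))⁻¹ * inner ℂ w x) • (z + w) := by
      have h4 : vec r = vec (x - ((1 + (c : ℂ))⁻¹ * inner ℂ w x) • (z + w)) := by
        rw [hr, vec_toV, hR, transv_mulVec hc hc0, hx, zero_add, mul_zero, zero_smul, add_zero]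
        rfl
      ext i
      exact congrFun h4 i
    rw [h3, inner_sub_right, inner_smul_right, inner_add_right, hyw, add_zero]
  have h3 : R * mat (rk x z + rk z x) * Rᴴ = mat (rk r w) + mat (rk w r) := by
    rw [mat_add, mul_add, add_mul, mul_vv_mul, mul_vv_mul, h1]
  rw [h3, mat_add, add_mul, mul_add, mul_add, trace_add, trace_add, trace_add, trace_rk_mul,
    trace_rk_mul, trace_rk_mul, trace_rk_mul, hy, hyw, inner_self_eq_norm_sq_to_K, hw]
  have h4 : inner ℂ r y = (starRingEnd ℂ) (inner ℂ y r) := (inner_conj_symm r y).symm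
  rw [h4, h2]
  have h5 : ((1 + (c : ℂ))⁻¹ * inner ℂ w x * inner ℂ y z).re =
      (inner ℂ y z * inner ℂ w x : ℂ).re / (1 + c) := by
    have h6 : (1 + (c : ℂ))⁻¹ * inner ℂ w x * inner ℂ y z =
        (((1 + c)⁻¹ : ℝ) : ℂ) * (inner ℂ y z * inner ℂ w x) := by
      push_cast
      ring
    rw [h6, Complex.re_ofReal_mul]
    field_simp
  simp only [map_one, one_pow, mul_one, one_mul, zero_mul, mul_zero, add_zero, zero_add,
    Complex.add_re, Complex.sub_re, Complex.conj_re, h5]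
  ring

/-- the Frobenius norm -/
def fro (A : MM) : ℝ := √((Aᴴ * A).trace.re)

theorem fro_tangent {z x : V} (hz : ‖z‖ = 1) (hx : inner ℂ z x = (0 : ℂ)) :
    fro (mat (rk x z + rk z x)) = √2 * ‖x‖ := by
  have hxz : inner ℂ x z = (0 : ℂ) := by
    rw [← inner_conj_symm, hx, map_zero]
  have h1 : (mat (rk x z + rk z x))ᴴ = mat (rk x z + rk z x) := by
    ext i j
    simp [rk, mat]
    ring
  rw [fro, h1, mat_add, add_mul, mul_add, mul_add, trace_add, trace_add, trace_add, trace_rk_mul,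
    trace_rk_mul, trace_rk_mul, trace_rk_mul, hx, hxz, inner_self_eq_norm_sq_to_K,
    inner_self_eq_norm_sq_to_K, hz]
  have h2 : ((0 : ℂ) * 0 + ((1 : ℝ) : ℂ) ^ 2 * ((‖x‖ : ℝ) : ℂ) ^ 2 +
      (((‖x‖ : ℝ) : ℂ) ^ 2 * ((1 : ℝ) : ℂ) ^ 2 + 0 * 0)).re = 2 * ‖x‖ ^ 2 := by
    have : ((0 : ℂ) * 0 + ((1 : ℝ) : ℂ) ^ 2 * ((‖x‖ : ℝ) : ℂ) ^ 2 +
      (((‖x‖ : ℝ) : ℂ) ^ 2 * ((1 : ℝ) : ℂ) ^ 2 + 0 * 0)) = ((2 * ‖x‖ ^ 2 : ℝ) : ℂ) := by
      push_cast
      ring
    rw [this, Complex.ofReal_re]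
  simp only [Complex.coe_algebraMap]
  rw [h2, Real.sqrt_mul (by norm_num), Real.sqrt_sq (norm_nonneg x)]

end Pool.Agent.W2helper38.AC
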