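import Mathlib

/-!
# Project AC (problem MP_28b04d_gt): statements of the pieces

`V = ℂ³`, `M` = the 3×3 complex matrices, `X` = the rank-one Hermitian projections = `CP²`.
-/

set_option autoImplicit false

open Set Filter Topology Metric
open scoped ContDiff

noncomputable section

namespace Pool.Agent.W2helper38.AC

abbrev V := EuclideanSpace ℂ (Fin 3)
abbrev M := Fin 3 → Fin 3 → ℂ

/-- the matrix `z w*` -/
def rk (z w : V) : M := fun i j => z i * star (w j)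

/-- the vector `A z` -/
def ap (A : M) (z : V) : V := WithLp.toLp 2 (fun i => ∑ j, A i j * z j)

/-- the complex projective plane: the Hermitian projections of trace one -/
def X : Set M :=
  {P | (∀ i j, P j i = star (P i j)) ∧ (∀ i j, ∑ k, P i k * P k j = P i j) ∧ ∑ i, P i i = 1}

/-- the orthogonal projection onto the line of `z` (for `z ≠ 0`) -/
def pr (z : V) : M := fun i j => z i * star (z j) / ((‖z‖ ^ 2 : ℝ) : ℂ)

/-- the cosine of the angle between `z` and the line `E [z]` -/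
def cc (E : M → M) (z : V) : ℝ := √((inner ℂ z (ap (E (pr z)) z) : ℂ).re) / ‖z‖

/-- the homotopy on `ℂ³ ∖ 0`: `(1 - t) c(z) z + t E[z] z` -/
def mm (E : M → M) (q : ℝ × V) : V :=
  ((1 - q.1) * cc E q.2) • q.2 + q.1 • ap (E (pr q.2)) q.2

/-! ## A: linear algebra -/

/-- A1. Hint: `P ∈ X` is not `0` (trace), take a column `u = ap P e ≠ 0`, `z = u/‖u‖`, `ap P z = z`;
then `Q = P - z z*` is Hermitian with `Q Q = Q` (as `P z z* = z z* = z z* P`) and trace `0`, and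
`0 = tr Q = ∑ |Q i j|²`. -/
def StmA1 : Prop := ∀ P ∈ X, ∃ z : V, ‖z‖ = 1 ∧ P = rk z z

/-- A2. -/
def StmA2 : Prop :=
  (∀ z : V, z ≠ 0 → pr z ∈ X) ∧
  (∀ z : V, ∀ a : ℂ, a ≠ 0 → pr (a • z) = pr z) ∧
  (∀ z : V, ‖z‖ = 1 → pr z = rk z z) ∧
  (∀ z w : V, z ≠ 0 → w ≠ 0 → pr z = pr w → ∃ a : ℂ, a ≠ 0 ∧ z = a • w) ∧
  (∀ A z, ∀ a : ℂ, ap A (a • z) = a • ap A z) ∧
  (∀ w z : V, ap (rk w w) z = (inner ℂ w z : ℂ) • w)

/-- A3: (from A1, by changing the phase of `w`: `∑ i, ∑ k, rk z z i k * rk w w k i = |z* w|²`). -/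
def StmA3 : Prop :=
  ∀ z : V, ‖z‖ = 1 → ∀ Q ∈ X, ∑ i, ∑ k, rk z z i k * Q k i ≠ 0 →
    ∃ w : V, ∃ c : ℝ, ‖w‖ = 1 ∧ Q = rk w w ∧ 0 < c ∧ c ≤ 1 ∧ inner ℂ z w = (c : ℂ)

/-! ## B: the inequality -/

/-- B. Proof. `t = 0` is impossible (`x = a z` and `z* x = 0` give `x = 0`). Put `p = w* x`,
`q = z* y`, `s² = 1 - c²`, `r = (1-t)/t`.

Case `s = 0`: `w = z`, `p = q = 0`, `(1-t) x + t y = a z`, both sides are `0` (product with `z`), so
`y = -r x` and the claim is `- r |x|² ≤ - |x| (r |x|)`.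

Case `s > 0`. Products with `z` and `w`: `t q + i β t c = a ((1-t) + t c)`,
`(1-t) p + i β t = a ((1-t) c + t)`, `β = (Im p - Im q)/c`. Eliminate `a`; with
`A = (1-t)² + t(1-t)c`, `B = t² + t(1-t)c`, `κ = t(1-t)s²/c`: `A Re p = B Re q`,
`(A + κ) Im p = (B + κ) Im q`, that is `Re q = r θ Re p`, `Im q = (r/θ) Im p`,
`θ = (r+c)/(1+rc) ∈ [c, 1/c]`. Write `x = (p/s²)(w - c z) + x₃`, `y = (q/s²)(z - c w) + y₃` with
`x₃, y₃ ⊥ z, w`; then `y₃ = - r x₃` (component of the equation orthogonal to `z, w`),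
`|x|² = |p|²/s² + |x₃|²`, `|y|² = |q|²/s² + |y₃|²`, and the left side of the claim is
`- Re(q̄ p)/s² + Re(y₃* x₃) = - r (θ (Re p)²/s² + θ⁻¹ (Im p)²/s² + |x₃|²)`. For `k ∈ [c, 1/c]`:
`k (c + 1/c) ≥ 1 + k²`. Hence `(c + 1/c) (-left) ≥ r |x|² + |y|²/r ≥ 2 |x| |y|` (if `r = 0`, i.e.
`t = 1`, then `y = 0` and both sides are `0`). -/
def StmB : Prop :=
  ∀ (z w x y : V) (c t : ℝ) (a : ℂ), ‖z‖ = 1 → ‖w‖ = 1 → 0 < c → inner ℂ z w = (c : ℂ) →
    inner ℂ z x = (0 : ℂ) → inner ℂ w y = (0 : ℂ) → x ≠ 0 → 0 ≤ t → t ≤ 1 →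
    ((1 - t : ℝ) : ℂ) • x + (t : ℂ) • y +
        (Complex.I * ((((inner ℂ w x : ℂ).im - (inner ℂ z y : ℂ).im) / c * t : ℝ) : ℂ)) • w =
      a • (((1 - t : ℝ) : ℂ) • z + (t : ℂ) • w) →
    (inner ℂ y x : ℂ).re - (inner ℂ y z * inner ℂ w x : ℂ).re / (1 + c) ≤
      -(2 * c / (1 + c ^ 2) * (‖x‖ * ‖y‖))

/-! ## C: the homotopy -/

/-- `E` is a smooth self-map of `X` and `E P` is never orthogonal to `P` -/
def Good (E : M → M) : Prop :=
  ContDiff ℝ ∞ E ∧ (∀ P ∈ X, E P ∈ X) ∧ ∀ P ∈ X, ∑ i, ∑ k, P i k * E P k i ≠ 0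

/-- C1: elementary properties of `mm E`. You may assume A1-A3 as hypotheses (`StmA1 → … → StmC1`).
Non-vanishing: for unit `z`, `E (pr z) = w w*`, `z* w = c > 0`: `cc E z = c`, `mm E (t, z) =
c ((1-t) z + t w)` and `|(1-t) z + t w|² = 1 - 2t(1-t)(1-c) > 0`; general `z` by homogeneity. -/
def StmC1 : Prop :=
  ∀ E : M → M, Good E →
    ContDiffOn ℝ ∞ (mm E) {q : ℝ × V | q.2 ≠ 0} ∧
    (∀ (t : ℝ) (z : V) (a : ℂ), a ≠ 0 → mm E (t, a • z) = a • mm E (t, z)) ∧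
    (∀ (t : ℝ) (z : V), z ≠ 0 → mm E (t, z) ≠ 0) ∧
    (∀ z : V, z ≠ 0 → 0 < cc E z) ∧
    (∀ z : V, mm E (0, z) = cc E z • z) ∧
    (∀ z : V, z ≠ 0 → pr (mm E (1, z)) = E (pr z))

/-- C2: the kernel of the derivative of `mm E (t, ·)` at a unit vector `z`. You may assume A1-A3 and
C1 as hypotheses.
Proof. Write `ζ = l z + x`, `z* x = 0`; `x ≠ 0`, otherwise the derivative is `l mm E (t, z) ≠ 0`
(homogeneity: the derivative at `z` in the direction `l z` is `l mm E (t, z)`). For `z* x = 0` the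
derivative of `pr` at `z` in the direction `x` is `x z* + z x*`, and that of `E ∘ pr` is
`W = fderiv ℝ E (rk z z) (rk x z + rk z x)`. As `E (pr ·) ∈ X`: `W* = W`, `W Q + Q W = W`,
`Q = w w*`. Put `y = ap W w`: then `W = y w* + w y*` and `w* y = 0`. With `p = w* x`, `q = z* y` the
derivative of `cc E` in the direction `x` is `Re p + Re q`, and that of `mm E (t, ·)` is
`(1-t)((Re p + Re q) z + c x) + t (c y + q̄ w + p w)`. It is equal to `-l mm E (t,z) =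
- l c ((1-t) z + t w)`. Divide by `c`; `a = - l - (Re p + Re q)/c`. -/
def StmC2 : Prop :=
  ∀ E : M → M, Good E → ∀ (z w : V) (c t : ℝ), ‖z‖ = 1 → ‖w‖ = 1 → 0 < c →
    inner ℂ z w = (c : ℂ) → E (rk z z) = rk w w →
    ∀ ζ : V, ζ ≠ 0 → fderiv ℝ (fun v : V => mm E (t, v)) z ζ = 0 →
    ∃ (x y : V) (a : ℂ), x ≠ 0 ∧ inner ℂ z x = (0 : ℂ) ∧ inner ℂ w y = (0 : ℂ) ∧
      fderiv ℝ E (rk z z) (rk x z + rk z x) = rk y w + rk w y ∧
      ((1 - t : ℝ) : ℂ) • x + (t : ℂ) • y +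
          (Complex.I * ((((inner ℂ w x : ℂ).im - (inner ℂ z y : ℂ).im) / c * t : ℝ) : ℂ)) • w =
        a • (((1 - t : ℝ) : ℂ) • z + (t : ℂ) • w)

/-! ## D: paths of homogeneous local diffeomorphisms of `W ∖ 0` -/

/-- the hypotheses of D -/
structure Path (W : Type) [NormedAddCommGroup W] [NormedSpace ℝ W] (m : ℝ × W → W) : Prop where
  smooth : ContDiffOn ℝ ∞ m {q : ℝ × W | q.2 ≠ 0}
  hom : ∀ (t : ℝ) (z : W) (r : ℝ), 0 < r → m (t, r • z) = r • m (t, z)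
  ne : ∀ t ∈ Icc (0 : ℝ) 1, ∀ z : W, z ≠ 0 → m (t, z) ≠ 0
  imm : ∀ t ∈ Icc (0 : ℝ) 1, ∀ z : W, z ≠ 0 → ∀ ζ : W,
    fderiv ℝ (fun v : W => m (t, v)) z ζ = 0 → ζ = 0
  inj0 : ∀ z z' : W, z ≠ 0 → z' ≠ 0 → m (0, z) = m (0, z') → z = z'
  surj0 : ∀ u : W, u ≠ 0 → ∃ z : W, z ≠ 0 ∧ m (0, z) = u

/-- D0: the inverse function theorem for `Φ (t, z) = (t, m (t, z))` at `(t, z)`, `t ∈ [0,1]`,
`z ≠ 0` (its derivative is injective, hence an isomorphism of the finite dimensional space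
`ℝ × W`): `Φ` is injective near `(t, z)` and maps neighbourhoods of `(t, z)` to neighbourhoods;
and the same for `m (t, ·)` with a smooth local inverse. -/
def StmD0 : Prop :=
  ∀ (W : Type) [NormedAddCommGroup W] [NormedSpace ℝ W] [FiniteDimensional ℝ W] (m : ℝ × W → W),
    Path W m → ∀ t ∈ Icc (0 : ℝ) 1, ∀ z : W, z ≠ 0 →
      (∃ U ∈ 𝓝 (t, z), InjOn (fun q : ℝ × W => (q.1, m q)) U) ∧
      (∀ U ∈ 𝓝 (t, z), (fun q : ℝ × W => (q.1, m q)) '' U ∈ 𝓝 (t, m (t, z))) ∧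
      ∃ g : W → W, ContDiffAt ℝ ∞ g (m (t, z)) ∧ g (m (t, z)) = z ∧
        ∀ᶠ u in 𝓝 (m (t, z)), m (t, g u) = u

/-- D1: `m (t, ·)` is injective on `W ∖ 0`. Hypothesis D0 may be used (`StmD0 → StmD1`).
The set `S` of `t ∈ [0,1]` with this property contains `0`. There are `0 < a ≤ b` with
`a |z| ≤ |m (t, z)| ≤ b |z|` for all `t ∈ [0,1]` (compactness, homogeneity). `S` is closed: if
`m (t, z) = m (t, z') = u`, `z ≠ z'`, then for `t'` near `t` there are points near `z` and near `z'`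
mapped to `u` by `m (t', ·)` (D0 (2)). `S` is open: otherwise `t_n → t ∈ S`,
`m (t_n, z_n) = m (t_n, z'_n)`, `z_n ≠ z'_n`, `|z_n| = 1`, limit points `z, z' ≠ 0` with
`m (t, z) = m (t, z')`, so `z = z'`, contradiction to D0 (1). -/
def StmD1 : Prop :=
  ∀ (W : Type) [NormedAddCommGroup W] [NormedSpace ℝ W] [FiniteDimensional ℝ W] (m : ℝ × W → W),
    Path W m → ∀ t ∈ Icc (0 : ℝ) 1, ∀ z z' : W, z ≠ 0 → z' ≠ 0 → m (t, z) = m (t, z') → z = z'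

/-- D2: `m (t, ·)` is onto `W ∖ 0`. Hypothesis D0 may be used. (For fixed `u ≠ 0` the set of
`t ∈ [0,1]` with `u ∈ m (t, W ∖ 0)` contains `0`, is open by D0 (2) and closed by compactness:
`a |z| ≤ |m (t, z)| ≤ b |z|`.) -/
def StmD2 : Prop :=
  ∀ (W : Type) [NormedAddCommGroup W] [NormedSpace ℝ W] [FiniteDimensional ℝ W] (m : ℝ × W → W),
    Path W m → ∀ t ∈ Icc (0 : ℝ) 1, ∀ u : W, u ≠ 0 → ∃ z : W, z ≠ 0 ∧ m (t, z) = u

/-! ## E: gluing -/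

/-- E. Proof: `χ i (P) = smoothTransition (12 |P e_i|² - 3)` vanishes for `|P e_i|² ≤ 1/4` and is
`1` for `|P e_i|² ≥ 1/3`; `S = ∑ χ i`; `S ≥ 1` on `X` (as `∑ |P e_i|² = 1` for `P = z z*`,
`‖z‖ = 1`); `K (t, P) = (S + smoothTransition (1 - S))⁻¹ ∑ i, χ i (P) h (t, P e_i)`, where
`P e_i` is the `i`-th column. The denominator is positive everywhere. `χ i (P) h (t, P e_i)` is
smooth near the points with `P e_i ≠ 0` and zero near those with `P e_i = 0`. For `P = z z*` one has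
`P e_i = conj (z i) z`. -/
def StmE : Prop :=
  ∀ h : ℝ × V → M, ContDiffOn ℝ ∞ h {q : ℝ × V | q.2 ≠ 0} →
    (∀ (t : ℝ) (z : V) (a : ℂ), z ≠ 0 → a ≠ 0 → h (t, a • z) = h (t, z)) →
    ∃ K : ℝ × M → M, ContDiff ℝ ∞ K ∧ ∀ (t : ℝ) (z : V), ‖z‖ = 1 → K (t, rk z z) = h (t, z)

end Pool.Agent.W2helper38.AC
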